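import Mathlib

/-!
Character sums over finite fields for the good places.
-/

set_option autoImplicit false

namespace Pool.Agent.T2h69.TW

open Finset

theorem quad_sum {F : Type} [Field F] [Fintype F] [DecidableEq F] (hF : ringChar F ≠ 2) (e : F)
    (he : e ≠ 0) : ∑ u : F, quadraticChar F (u ^ 2 - e) = -1 := by
  have h2 : (2 : F) ≠ 0 := Ring.two_ne_zero hF
  have h1 : ∀ u : F, quadraticChar F (u ^ 2 - e) =
      ((univ.filter (fun v : F => v ^ 2 = u ^ 2 - e)).card : ℤ) - 1 := by
    intro u
    have h := quadraticChar_card_sqrts hF (u ^ 2 - e)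
    rw [eq_sub_iff_add_eq, ← h, Set.toFinset_ofPred]
  have h3 : (univ.filter (fun p : F × F => p.2 ^ 2 = p.1 ^ 2 - e)).card =
      (univ.filter (fun s : F => s ≠ 0)).card := by
    refine Finset.card_nbij' (fun p => p.1 - p.2) (fun s => ((s + e / s) / 2, (e / s - s) / 2))
      ?_ ?_ ?_ ?_
    · intro p hp
      rw [mem_coe, mem_filter] at hp ⊢
      refine ⟨mem_univ _, fun h => he ?_⟩
      have h4 : e = (p.1 - p.2) * (p.1 + p.2) := by linear_combination hp.2
      have h' : p.1 - p.2 = 0 := h
      rw [h4, h', zero_mul]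
    · intro s hs
      rw [mem_coe, mem_filter] at hs ⊢
      refine ⟨mem_univ _, ?_⟩
      have := hs.2
      field_simp
      ring
    · intro p hp
      rw [mem_coe, mem_filter] at hp
      have h4 : e = (p.1 - p.2) * (p.1 + p.2) := by linear_combination hp.2
      have h5 : p.1 - p.2 ≠ 0 := fun h => he (by rw [h4, h, zero_mul])
      have h6 : e / (p.1 - p.2) = p.1 + p.2 := by
        rw [div_eq_iff h5, h4]; ring
      refine Prod.ext ?_ ?_
      · show (p.1 - p.2 + e / (p.1 - p.2)) / 2 = p.1
        rw [h6]; field_simp; ring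
      · show (e / (p.1 - p.2) - (p.1 - p.2)) / 2 = p.2
        rw [h6]; field_simp; ring
    · intro s hs
      show (s + e / s) / 2 - (e / s - s) / 2 = s
      rw [mem_coe, mem_filter] at hs
      have := hs.2
      field_simp
      ring
  have h4 : ∑ u : F, ((univ.filter (fun v : F => v ^ 2 = u ^ 2 - e)).card : ℤ) =
      ((univ.filter (fun p : F × F => p.2 ^ 2 = p.1 ^ 2 - e)).card : ℤ) := by
    rw [Finset.card_filter]
    push_cast
    rw [← Finset.univ_product_univ, Finset.sum_product]
    refine sum_congr rfl fun u _ => ?_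
    rw [Finset.card_filter]
    push_cast
    rfl
  have h5 : ((univ.filter (fun s : F => s ≠ 0)).card : ℤ) = Fintype.card F - 1 := by
    have := Finset.card_filter_add_card_filter_not (s := (univ : Finset F)) (fun s : F => s = 0)
    rw [Finset.filter_eq' univ (0 : F), if_pos (mem_univ _), card_singleton, card_univ] at this
    rw [← this]
    push_cast
    ring
  rw [sum_congr rfl fun u _ => h1 u, sum_sub_distrib, h4, h3, h5, sum_const, card_univ, nsmul_eq_mul]
  ring

theorem quad_sum' {F : Type} [Field F] [Fintype F] [DecidableEq F] (hF : ringChar F ≠ 2) (b c : F)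
    (he : b ^ 2 - 4 * c ≠ 0) : ∑ u : F, quadraticChar F (u ^ 2 + b * u + c) = -1 := by
  have h2 : (2 : F) ≠ 0 := Ring.two_ne_zero hF
  have h4 : (4 : F) ≠ 0 := by
    have : (4 : F) = 2 * 2 := by norm_num
    rw [this]; exact mul_ne_zero h2 h2
  have h := quad_sum hF ((b ^ 2 - 4 * c) / 4) (div_ne_zero he h4)
  rw [← h]
  refine Fintype.sum_equiv (Equiv.addRight (b / 2)) _ _ fun u => ?_
  congr 1
  show u ^ 2 + b * u + c = (u + b / 2) ^ 2 - (b ^ 2 - 4 * c) / 4
  field_simp
  ring

theorem lin_sum {F : Type} [Field F] [Fintype F] [DecidableEq F] (hF : ringChar F ≠ 2) (c : F) :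
    ∑ u : F, quadraticChar F (u + c) = 0 := by
  rw [← quadraticChar_sum_zero hF]
  exact Fintype.sum_equiv (Equiv.addRight c) _ _ fun u => rfl

theorem prod_sum {F : Type} [Field F] [Fintype F] [DecidableEq F] (hF : ringChar F ≠ 2) {a b : F}
    (hab : a ≠ b) : ∑ u : F, quadraticChar F (u + a) * quadraticChar F (u + b) = -1 := by
  have h := quad_sum' hF (a + b) (a * b) (by
    have e : (a + b) ^ 2 - 4 * (a * b) = (a - b) ^ 2 := by ring
    rw [e]
    exact pow_ne_zero 2 (sub_ne_zero.2 hab))
  rw [← h]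
  refine sum_congr rfl fun u _ => ?_
  rw [← map_mul]
  congr 1
  ring

theorem chi_ge {F : Type} [Field F] [Fintype F] [DecidableEq F] (g : F → F) {z : F} (hz : g z = 0) :
    -((Fintype.card F : ℤ) - 1) ≤ ∑ u : F, quadraticChar F (g u) := by
  have h1 : ∑ u : F, quadraticChar F (g u) = ∑ u ∈ univ.erase z, quadraticChar F (g u) := by
    rw [← Finset.sum_erase]
    rw [hz, quadraticChar_zero]
  rw [h1]
  have h2 : ∑ u ∈ univ.erase z, (-1 : ℤ) ≤ ∑ u ∈ univ.erase z, quadraticChar F (g u) := by
    refine sum_le_sum fun u _ => ?_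
    rcases quadraticChar_isQuadratic F (g u) with h | h | h <;> rw [h] <;> norm_num
  refine le_trans (le_of_eq ?_) h2
  rw [sum_const, card_erase_of_mem (mem_univ _), card_univ, nsmul_eq_mul]
  have : 1 ≤ Fintype.card F := Fintype.card_pos
  push_cast [Nat.cast_sub this]
  ring

theorem exists_split {F : Type} [Field F] [Fintype F] [DecidableEq F] (hF : ringChar F ≠ 2)
    {r1 r2 : F} (h1 : r1 ≠ 0) (h2 : r2 ≠ 0) (h12 : r1 ≠ r2) {s1 s2 : ℤ} (hs1 : s1 = 1 ∨ s1 = -1)
    (hs2 : s2 = 1 ∨ s2 = -1) (hs : ¬ (s1 = 1 ∧ s2 = 1)) :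
    ∃ X : F, (X + r1 = 0 ∨ quadraticChar F (X + r1) = s1) ∧
      (X + r2 = 0 ∨ quadraticChar F (X + r2) = s2) ∧ (X = 0 ∨ quadraticChar F X = s1 * s2) := by
  by_contra hcon
  push Not at hcon
  have hq : ∀ z : F, ∀ s : ℤ, (s = 1 ∨ s = -1) → z ≠ 0 → quadraticChar F z ≠ s →
      1 + s * quadraticChar F z = 0 := by
    intro z s hs hz h
    rcases quadraticChar_dichotomy hz with h' | h' <;> rcases hs with rfl | rfl <;>
      rw [h'] at h ⊢ <;> first | exact absurd rfl h | norm_num
  have hE : ∑ X : F, (1 + s1 * quadraticChar F (X + r1)) * (1 + s2 * quadraticChar F (X + r2)) *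
      (1 + s1 * s2 * quadraticChar F X) = 0 := by
    refine sum_eq_zero fun X _ => ?_
    have hs12 : s1 * s2 = 1 ∨ s1 * s2 = -1 := by
      rcases hs1 with rfl | rfl <;> rcases hs2 with rfl | rfl <;> norm_num
    by_cases c1 : X + r1 = 0 ∨ quadraticChar F (X + r1) = s1
    · by_cases c2 : X + r2 = 0 ∨ quadraticChar F (X + r2) = s2
      · obtain ⟨c3, c4⟩ := hcon X c1 c2
        rw [hq X (s1 * s2) hs12 c3 c4, mul_zero]
      · push Not at c2
        rw [hq _ s2 hs2 c2.1 c2.2]
        ring
    · push Not at c1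
      rw [hq _ s1 hs1 c1.1 c1.2]
      ring
  have hexp : ∀ X : F, (1 + s1 * quadraticChar F (X + r1)) * (1 + s2 * quadraticChar F (X + r2)) *
      (1 + s1 * s2 * quadraticChar F X) = 1 + s1 * quadraticChar F (X + r1) +
      s2 * quadraticChar F (X + r2) + s1 * s2 * quadraticChar F X +
      s1 * s2 * (quadraticChar F (X + r1) * quadraticChar F (X + r2)) +
      s2 * (quadraticChar F (X + r1) * quadraticChar F X) +
      s1 * (quadraticChar F (X + r2) * quadraticChar F X) +
      quadraticChar F ((X + r1) * (X + r2) * X) := by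
    intro X
    rw [map_mul, map_mul]
    have e1 : s1 ^ 2 = 1 := by rcases hs1 with rfl | rfl <;> norm_num
    have e2 : s2 ^ 2 = 1 := by rcases hs2 with rfl | rfl <;> norm_num
    have e1' : s1 * s1 = 1 := by rw [← sq, e1]
    have e2' : s2 * s2 = 1 := by rw [← sq, e2]
    linear_combination (s2 * (quadraticChar F (X + r1) * quadraticChar F X) +
      quadraticChar F (X + r1) * quadraticChar F (X + r2) * quadraticChar F X * s2 ^ 2) * e1 +
      (s1 * (quadraticChar F (X + r2) * quadraticChar F X) +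
      quadraticChar F (X + r1) * quadraticChar F (X + r2) * quadraticChar F X) * e2
  rw [sum_congr rfl fun X _ => hexp X] at hE
  have q1 : ∑ u : F, quadraticChar F (u + r1) * quadraticChar F u = -1 := by
    have := prod_sum hF h1
    simpa only [add_zero] using this
  have q2 : ∑ u : F, quadraticChar F (u + r2) * quadraticChar F u = -1 := by
    have := prod_sum hF h2
    simpa only [add_zero] using this
  simp only [sum_add_distrib, ← mul_sum, lin_sum hF, prod_sum hF h12, q1, q2,
    quadraticChar_sum_zero hF, sum_const, card_univ, nsmul_eq_mul, mul_one, mul_zero, add_zero] at hE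
  have h3 := chi_ge (F := F) (fun X => (X + r1) * (X + r2) * X) (z := 0) (by simp)
  have h4 : s1 * s2 + s2 + s1 = -1 := by
    rcases hs1 with rfl | rfl <;> rcases hs2 with rfl | rfl
    · exact absurd ⟨rfl, rfl⟩ hs
    all_goals norm_num
  linarith

theorem exists_inert {F : Type} [Field F] [Fintype F] [DecidableEq F] (hF : ringChar F ≠ 2)
    {b c : F} (hbc : quadraticChar F (b ^ 2 - 4 * c) = -1) :
    ∃ X : F, quadraticChar F (X ^ 2 + b * X + c) = -1 ∧ (X = 0 ∨ quadraticChar F X = -1) := by
  have hne : b ^ 2 - 4 * c ≠ 0 := by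
    intro h
    rw [h, quadraticChar_zero] at hbc
    norm_num at hbc
  have hq0 : ∀ X : F, X ^ 2 + b * X + c ≠ 0 := by
    intro X h
    have e : b ^ 2 - 4 * c = (2 * X + b) ^ 2 := by linear_combination (-4 : F) * h
    rw [e] at hbc hne
    rw [quadraticChar_sq_one' (fun h0 => hne (by rw [h0]; ring))] at hbc
    norm_num at hbc
  by_contra hcon
  push Not at hcon
  have hE : ∑ X : F, (1 - quadraticChar F (X ^ 2 + b * X + c)) * (1 - quadraticChar F X) = 0 := by
    refine sum_eq_zero fun X _ => ?_
    rcases quadraticChar_dichotomy (hq0 X) with h | h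
    · rw [h]; ring
    · obtain ⟨h1, h2⟩ := hcon X h
      rcases quadraticChar_dichotomy h1 with h' | h'
      · rw [h']; ring
      · exact absurd h' h2
  have hexp : ∀ X : F, (1 - quadraticChar F (X ^ 2 + b * X + c)) * (1 - quadraticChar F X) =
      1 - quadraticChar F (X ^ 2 + b * X + c) - quadraticChar F X +
      quadraticChar F ((X ^ 2 + b * X + c) * X) := by
    intro X
    rw [map_mul]
    ring
  rw [sum_congr rfl fun X _ => hexp X] at hE
  simp only [sum_add_distrib, sum_sub_distrib, quadraticChar_sum_zero hF, quad_sum' hF b c hne,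
    sum_const, card_univ, nsmul_eq_mul, mul_one] at hE
  have h3 := chi_ge (F := F) (fun X => (X ^ 2 + b * X + c) * X) (z := 0) (by simp)
  linarith

end Pool.Agent.T2h69.TW
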